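import Mathlib
import Pool.Agent.W978.QN.Asm

/-!
Order of magnitude of the number of points of bounded anticanonical height on the smooth divisors
of type (1,1,1) in the threefold product of the projective plane.  Statements of the parts.
-/

namespace Pool.Agent.W978.QO

open Finset Pool.Agent.W978.QN

/-- QO-SL: slices. -/
def S_SL : Prop := ∀ (A K : ℕ) (c : ℝ), 1 ≤ A → 1 ≤ K → 0 < c → ∃ C : ℝ, 0 < C ∧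
  ∀ (M : Fin 3 → Fin 3 → ℤ) (X₁ X₂ Y g : ℕ), 1 ≤ X₁ → 1 ≤ X₂ → 1 ≤ g →
  (∀ k j, |M k j| ≤ A * X₁) →
  (∃ k k' j j', c * (X₁ : ℝ) ^ 2 ≤ |((mnr M k k' j j' : ℤ) : ℝ)|) →
  ∀ Q : Finset (Fin 3 → ℤ), (∀ q ∈ Q, Prim q ∧ nm q ≤ X₂ ∧ ∀ k, |wv M q k| ≤ Y) →
  (∀ q ∈ Q, ∀ q' ∈ Q, ∀ i, (g : ℤ) ∣ K * cp q q' i) →
  (Q.card : ℝ) ≤ C * ((X₂ : ℝ) + g) * (1 + Y / (X₁ * g)) ^ 2

/-- QO-RHO: the number of zeros of the determinant modulo a squarefree number. -/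
def S_RHO : Prop := ∀ b : Fin 3 → Fin 3 → Fin 3 → ℤ,
  (∃ p : Fin 3 → ℂ, (Matrix.of (mp b p)).det ≠ 0) → ∃ C : ℝ, 0 < C ∧
  ∀ d : ℕ, 1 ≤ d → Squarefree d →
    (Nat.card {x : Fin 3 → ZMod d // (Matrix.of (mp b x)).det = 0} : ℝ) ≤
      C * (3 : ℝ) ^ d.primeFactors.card * (d : ℝ) ^ 2

/-- QO-AVG: the average of the sum of inverses of divisors. -/
def S_AVG : Prop := ∀ b : Fin 3 → Fin 3 → Fin 3 → ℤ,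
  (∃ p : Fin 3 → ℂ, (Matrix.of (mp b p)).det ≠ 0) → ∃ C : ℝ, 0 < C ∧
  ∀ X : ℕ, 1 ≤ X → ∑ p ∈ (bx X).filter (fun p => dm (mp b p) ≠ 0),
    ∑ g ∈ (dm (mp b p)).natAbs.divisors, (1 / (g : ℝ)) ≤ C * (X : ℝ) ^ 3

/-- QO-DC: the determinants, curried form. -/
def S_DC : Prop := ∀ a : (Fin 3 → Fin 3) → ℤ, Smooth a → ∀ σ : Equiv.Perm (Fin 3),
  ∃ p : Fin 3 → ℂ, (Matrix.of (mp (cu a σ) p)).det ≠ 0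

open Classical in
/-- QO-L1: primitive vectors on a plane, from below. -/
def S_L1 : Prop := ∃ (c : ℝ) (K : ℕ), 0 < c ∧ ∀ w : Fin 3 → ℤ, w ≠ 0 → ∀ R : ℕ,
  (K : ℤ) * nm w ^ 3 ≤ R →
    c * (R : ℝ) ^ 2 / nm w ≤ (((bx R).filter fun r => Rep r ∧ ∑ k, w k * r k = 0).card : ℝ)

open Classical in
/-- QO-L2: primitive vectors in a dyadic box with non-vanishing determinant. -/
def S_L2 : Prop := ∀ b : Fin 3 → Fin 3 → Fin 3 → ℤ,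
  (∃ p : Fin 3 → ℂ, (Matrix.of (mp b p)).det ≠ 0) → ∃ (c : ℝ) (K : ℕ), 0 < c ∧
  ∀ X : ℕ, K ≤ X → c * (X : ℝ) ^ 3 ≤
    (((bx X).filter fun p => Rep p ∧ (X : ℤ) < 2 * nm p ∧ dm (mp b p) ≠ 0).card : ℝ)

/-- QO-L3: zeros of the determinant on planes. -/
def S_L3 : Prop := ∀ b : Fin 3 → Fin 3 → Fin 3 → ℤ,
  (∃ p : Fin 3 → ℂ, (Matrix.of (mp b p)).det ≠ 0) → ∃ F : Finset (Fin 3 → ℤ),
  (∀ v ∈ F, v ≠ 0) ∧ ∀ w : Fin 3 → ℤ, w ≠ 0 → (∀ v ∈ F, cp w v ≠ 0) →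
  ∀ S : Finset (Fin 3 → ℤ), (∀ r ∈ S, Prim r ∧ ∑ k, w k * r k = 0 ∧ dm (mp b r) = 0) →
  S.card ≤ 6

/-- The lower bound in a box. -/
def LBox (a : (Fin 3 → Fin 3) → ℤ) : Prop := ∃ (c : ℝ) (K : ℕ), 0 < c ∧
  ∀ X₁ X₂ X₃ : ℕ, K ≤ X₁ → K ≤ X₂ → K * (X₁ * X₂) ^ 3 ≤ X₃ →
  ∃ S : Finset (Fin 3 → Fin 3 → ℤ),
    (∀ P ∈ S, (∀ i, Rep (P i)) ∧ tf a P = 0 ∧ InU a P ∧
      nm (P 0) ≤ X₁ ∧ (X₁ : ℤ) < 2 * nm (P 0) ∧ nm (P 1) ≤ X₂ ∧ (X₂ : ℤ) < 2 * nm (P 1) ∧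
      nm (P 2) ≤ X₃) ∧
    c * ((X₁ : ℝ) * X₂ * X₃) ^ 2 ≤ (S.card : ℝ)

/-- QO-LB: the lower bound in a box. -/
def S_LB : Prop := ∀ a : (Fin 3 → Fin 3) → ℤ, Smooth a → LBox a

/-- QO-LS: summation of the lower bounds. -/
def S_LS : Prop := ∀ a : (Fin 3 → Fin 3) → ℤ, LBox a → ∃ (c : ℝ) (B₀ : ℕ), 0 < c ∧
  ∀ B : ℕ, B₀ ≤ B → ∃ S : Finset (Fin 3 → Fin 3 → ℤ),
    (∀ P ∈ S, (∀ i, Rep (P i)) ∧ tf a P = 0 ∧ InU a P ∧ ∏ i, nm (P i) ≤ B) ∧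
    c * (B : ℝ) ^ 2 * (Real.log B) ^ 2 ≤ (S.card : ℝ)

end Pool.Agent.W978.QO
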