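import Mathlib
import Pool.Agent.W978.QO.Stm

/-! The count in a dyadic box, sharp form. -/

namespace Pool.Agent.W978.QO

open Finset Pool.Agent.W978.QN

open Classical in
/-- The sum over the second point. -/
theorem sum_q2 (A K : ℕ) (hA : 1 ≤ A) (CA CS : ℝ) (hCA : 0 < CA) (hCS : 0 < CS)
    (M : Fin 3 → Fin 3 → ℤ) (X₁ X₂ : ℕ) (hX₁ : 1 ≤ X₁) (hX₂ : 1 ≤ X₂)
    (hdm : dm M ≠ 0)
    (hcd : ∀ (g : ℤ) (q q' : Fin 3 → ℤ), (∀ k, g ∣ wv M q k) → (∀ k, g ∣ wv M q' k) →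
      ∀ i, g ∣ K * cp q q' i)
    (hwA : ∀ q ∈ bx X₂, ∀ k, 2 * |wv M q k| ≤ A * X₁ * X₂)
    (hQA : ∀ (Y g : ℕ), 1 ≤ g → g ≤ Y → Y ≤ A * X₁ * X₂ →
      ∀ Q : Finset (Fin 3 → ℤ), (∀ q ∈ Q, Prim q ∧ nm q ≤ X₂ ∧ ∀ k, |wv M q k| ≤ Y) →
      (∀ q ∈ Q, ∀ q' ∈ Q, ∀ i, (g : ℤ) ∣ K * cp q q' i) →
      (Q.card : ℝ) ≤ CA * (Nat.log 2 X₂ + 1) * (1 + Y * X₂ / (X₁ * g)) ^ 2)
    (hSL : ∀ (Y g : ℕ), 1 ≤ g →
      ∀ Q : Finset (Fin 3 → ℤ), (∀ q ∈ Q, Prim q ∧ nm q ≤ X₂ ∧ ∀ k, |wv M q k| ≤ Y) →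
      (∀ q ∈ Q, ∀ q' ∈ Q, ∀ i, (g : ℤ) ∣ K * cp q q' i) →
      (Q.card : ℝ) ≤ CS * ((X₂ : ℝ) + g) * (1 + Y / (X₁ * g)) ^ 2)
    (E : ℝ) (hE : 1 ≤ E) (hE0 : ((Nat.log 2 X₂ : ℕ) : ℝ) + 1 ≤ E)
    (hE1 : ((Nat.log 2 (A * X₁ * X₂) : ℕ) : ℝ) + 1 ≤ E)
    (hE2 : (((dm M).natAbs.divisors.card : ℕ) : ℝ) ≤ E)
    (s : ℝ) (hs : 1 ≤ s) (hs4 : s ^ 4 = X₂) :
    ∑ q ∈ (bx X₂).filter (fun q => Prim q), ((ct (wv M q) : ℝ) / (nm (wv M q) : ℝ)) ≤
    32 * CS * (1 + A) * A * ((X₂ : ℝ) ^ 2 / X₁) *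
      (∑ g ∈ (dm M).natAbs.divisors, (1 / (g : ℝ))) +
    E ^ 3 * ((8 * A * CA + 16 * CS) * (1 + (X₂ : ℝ) ^ 2 / (X₁ * s))) := by
  set n := (dm M).natAbs with hndef
  have hn0 : n ≠ 0 := Int.natAbs_ne_zero.2 hdm
  set Q := (bx X₂).filter (fun q => Prim q) with hQ
  have x1 : (1 : ℝ) ≤ X₁ := by exact_mod_cast hX₁
  have x2 : (1 : ℝ) ≤ X₂ := by exact_mod_cast hX₂
  have hct : ∀ q ∈ Q, ct (wv M q) ∈ n.divisors := by
    intro q hq
    rw [hQ, mem_filter] at hq
    rw [Nat.mem_divisors]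
    refine ⟨?_, hn0⟩
    have h3 : (ct (wv M q) : ℤ) ∣ dm M := dvd_dm hq.2 fun k => ct_dvd _ k
    exact Int.natCast_dvd.1 h3
  have hnmle : ∀ q ∈ Q, 2 * nm (wv M q) ≤ A * X₁ * X₂ := by
    intro q hq
    rw [hQ, mem_filter] at hq
    have h1 : ∀ k, |wv M q k| ≤ (A * X₁ * X₂ : ℤ) / 2 := fun k => by
      have := hwA q hq.1 k
      omega
    have := nm_le h1
    omega
  have hlog : ∀ q ∈ Q, Nat.log 2 (nm (wv M q)).toNat ∈ range (Nat.log 2 (A * X₁ * X₂) + 1) := by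
    intro q hq
    rw [mem_range]
    have h0 := hnmle q hq
    have h1 : (nm (wv M q)).toNat ≤ A * X₁ * X₂ := by
      have h00 : (0 : ℤ) ≤ A * X₁ * X₂ := by positivity
      have : ((A * X₁ * X₂ : ℕ) : ℤ) = A * X₁ * X₂ := by push_cast; ring
      omega
    have := Nat.log_mono_right (b := 2) h1
    omega
  have hmap : ∀ q ∈ Q, (ct (wv M q), Nat.log 2 (nm (wv M q)).toNat) ∈
      n.divisors ×ˢ range (Nat.log 2 (A * X₁ * X₂) + 1) := fun q hq =>
    mem_product.2 ⟨hct q hq, hlog q hq⟩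
  rw [← Finset.sum_fiberwise_of_maps_to hmap]
  have hs0 : 0 < s := by linarith
  have hbig : (0 : ℝ) ≤ (X₂ : ℝ) ^ 2 / (X₁ * s) := by positivity
  set R : ℝ := (X₂ : ℝ) ^ 2 / (X₁ * s) with hR
  have hfib : ∀ y ∈ n.divisors ×ˢ range (Nat.log 2 (A * X₁ * X₂) + 1),
      ∑ q ∈ Q with (ct (wv M q), Nat.log 2 (nm (wv M q)).toNat) = y,
        ((ct (wv M q) : ℝ) / (nm (wv M q) : ℝ)) ≤
        8 * CS * (1 + A) * X₂ / ((X₁ : ℝ) ^ 2 * (y.1 : ℝ)) * 2 ^ (y.2 + 1) +
        E * ((8 * A * CA + 16 * CS) * (1 + R)) := by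
    rintro ⟨g, j⟩ hy
    simp only
    have hg1 : 1 ≤ g := Nat.pos_of_mem_divisors (mem_product.1 hy).1
    have hgn : g ∣ n := Nat.dvd_of_mem_divisors (mem_product.1 hy).1
    have hg1' : (1 : ℝ) ≤ g := by exact_mod_cast hg1
    set S := Q.filter (fun q => (ct (wv M q), Nat.log 2 (nm (wv M q)).toNat) = (g, j)) with hS
    have hT1 : 0 ≤ 8 * CS * (1 + A) * X₂ / ((X₁ : ℝ) ^ 2 * (g : ℝ)) * 2 ^ (j + 1) := by positivity
    have hT2 : 0 ≤ E * ((8 * A * CA + 16 * CS) * (1 + R)) := by positivity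
    have hrhs := add_nonneg hT1 hT2
    by_cases hSe : S = ∅
    · rw [hSe, Finset.sum_empty]
      exact hrhs
    obtain ⟨q₀, hq₀⟩ := Finset.nonempty_iff_ne_empty.2 hSe
    set Y : ℕ := 2 ^ (j + 1) with hY
    have hYr : (Y : ℝ) = 2 * 2 ^ j := by rw [hY]; push_cast; ring
    -- facts on the elements
    have hfact : ∀ q ∈ S, Prim q ∧ q ∈ bx X₂ ∧ ct (wv M q) = g ∧
        ((2 ^ j : ℕ) : ℤ) ≤ nm (wv M q) ∧ nm (wv M q) < ((2 ^ (j + 1) : ℕ) : ℤ) ∧
        (g : ℤ) ≤ nm (wv M q) := by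
      intro q hq
      rw [hS, mem_filter] at hq
      obtain ⟨hqQ, hq3⟩ := hq
      rw [hQ, mem_filter] at hqQ
      rw [Prod.mk.injEq] at hq3
      have hne := wv_ne hdm hqQ.2
      obtain ⟨hc1, hc2⟩ := ct_le_nm hne
      rw [hq3.1] at hc2
      have hnm1 : 1 ≤ nm (wv M q) := nm_pos_of_ne hne
      refine ⟨hqQ.2, hqQ.1, hq3.1, ?_, ?_, hc2⟩
      · have h1 : 2 ^ j ≤ (nm (wv M q)).toNat := by
          rw [← hq3.2]
          exact Nat.pow_log_le_self 2 (by omega)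
        omega
      · have h1 : (nm (wv M q)).toNat < 2 ^ (j + 1) := by
          rw [← hq3.2]
          exact Nat.lt_pow_succ_log_self (by norm_num) _
        omega
    have hgY : g ≤ Y := by
      obtain ⟨_, _, _, _, h5, h6⟩ := hfact q₀ hq₀
      rw [hY]
      omega
    have hYA : Y ≤ A * X₁ * X₂ := by
      obtain ⟨h1, h2, h3, h4, h5, h6⟩ := hfact q₀ hq₀
      have h7 := hnmle q₀ (mem_filter.1 hq₀).1
      have h8 : ((2 ^ (j + 1) : ℕ) : ℤ) = 2 * ((2 ^ j : ℕ) : ℤ) := by push_cast; ring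
      have h9 : ((Y : ℕ) : ℤ) ≤ ((A * X₁ * X₂ : ℕ) : ℤ) := by
        rw [hY, h8]
        push_cast at h4 ⊢
        linarith
      exact_mod_cast h9
    have hSprop : ∀ q ∈ S, Prim q ∧ nm q ≤ X₂ ∧ ∀ k, |wv M q k| ≤ Y := by
      intro q hq
      obtain ⟨h1, h2, h3, h4, h5, h6⟩ := hfact q hq
      exact ⟨h1, mem_bx.1 h2, fun k => (le_nm _ k).trans (by rw [hY]; exact h5.le)⟩
    have hScp : ∀ q ∈ S, ∀ q' ∈ S, ∀ i, (g : ℤ) ∣ K * cp q q' i := by
      intro q hq q' hq' i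
      apply hcd
      · intro k
        rw [← (hfact q hq).2.2.1]
        exact ct_dvd _ k
      · intro k
        rw [← (hfact q' hq').2.2.1]
        exact ct_dvd _ k
    have hterm : ∀ q ∈ S, ((ct (wv M q) : ℝ) / (nm (wv M q) : ℝ)) ≤
        min (1 : ℝ) (2 * (g : ℝ) / Y) := by
      intro q hq
      obtain ⟨h1, h2, h3, h4, h5, h6⟩ := hfact q hq
      have hpow : ((2 : ℝ) ^ j) ≤ (nm (wv M q) : ℝ) := by exact_mod_cast h4
      have h6' : ((g : ℕ) : ℝ) ≤ (nm (wv M q) : ℝ) := by exact_mod_cast h6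
      have h2j : (1 : ℝ) ≤ (2 : ℝ) ^ j := one_le_pow₀ (by norm_num)
      rw [le_min_iff, h3]
      constructor
      · rw [div_le_one (by linarith)]
        exact h6'
      · rw [hYr]
        have : 2 * (g : ℝ) / (2 * 2 ^ j) = g / 2 ^ j := by
          rw [mul_div_mul_left _ _ (by norm_num : (2 : ℝ) ≠ 0)]
        rw [this]
        gcongr
    have hsum : ∑ q ∈ S, ((ct (wv M q) : ℝ) / (nm (wv M q) : ℝ)) ≤
        (S.card : ℝ) * min (1 : ℝ) (2 * (g : ℝ) / Y) := by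
      have := Finset.sum_le_card_nsmul _ _ _ hterm
      rwa [nsmul_eq_mul] at this
    refine hsum.trans ?_
    have hYpos : (0 : ℝ) < Y := by rw [hYr]; positivity
    have hYA' : (Y : ℝ) ≤ A * X₁ * X₂ := by exact_mod_cast hYA
    have hA' : (1 : ℝ) ≤ A := by exact_mod_cast hA
    have hYr' : (Y : ℝ) = 2 ^ (j + 1) := by rw [hY]; push_cast; ring
    have hsl := hSL Y g hg1 S hSprop hScp
    by_cases hcase : g * X₁ ≤ Y
    · -- thick tube
      have hcr : (g : ℝ) * X₁ ≤ Y := by exact_mod_cast hcase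
      have hgA : (g : ℝ) ≤ A * X₂ := by
        have e1 : (g : ℝ) * X₁ ≤ (A * X₂) * X₁ := by
          calc (g : ℝ) * X₁ ≤ Y := hcr
            _ ≤ A * X₁ * X₂ := hYA'
            _ = (A * X₂) * X₁ := by ring
        exact le_of_mul_le_mul_right e1 (by linarith)
      have h1 : (X₂ : ℝ) + g ≤ (1 + A) * X₂ := by linarith
      have h2 : 1 + (Y : ℝ) / (X₁ * g) ≤ 2 * (Y / (X₁ * g)) := by
        have : 1 ≤ (Y : ℝ) / (X₁ * g) := by
          rw [one_le_div (by positivity)]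
          linarith
        linarith
      have h3 : (S.card : ℝ) * min (1 : ℝ) (2 * (g : ℝ) / Y) ≤
          8 * CS * (1 + A) * X₂ / ((X₁ : ℝ) ^ 2 * (g : ℝ)) * 2 ^ (j + 1) := by
        calc (S.card : ℝ) * min (1 : ℝ) (2 * (g : ℝ) / Y)
            ≤ (CS * ((1 + A) * X₂) * (2 * (Y / (X₁ * g))) ^ 2) * (2 * (g : ℝ) / Y) := by
              apply mul_le_mul _ (min_le_right _ _) (le_min zero_le_one (by positivity))
                (by positivity)
              refine hsl.trans ?_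
              gcongr
          _ = 8 * CS * (1 + A) * X₂ / ((X₁ : ℝ) ^ 2 * (g : ℝ)) * Y := by
              field_simp
              ring
          _ = _ := by rw [hYr']
      linarith
    · -- thin tube
      push Not at hcase
      have h1 := hQA Y g hg1 hgY hYA S hSprop hScp
      have hcase' : (Y : ℝ) ≤ g * X₁ := by exact_mod_cast hcase.le
      have hmin0 : 0 ≤ min (1 : ℝ) (2 * (g : ℝ) / Y) := le_min zero_le_one (by positivity)
      set u : ℝ := Y * X₂ / (X₁ * g) with hu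
      have hu0 : 0 ≤ u := by positivity
      have hsq : (1 + u) ^ 2 ≤ 2 * (1 + u ^ 2) := by nlinarith [sq_nonneg (1 - u)]
      have ha : (S.card : ℝ) ≤ 2 * CA * E + 2 * CA * E * u ^ 2 := by
        calc (S.card : ℝ) ≤ CA * (Nat.log 2 X₂ + 1) * (1 + u) ^ 2 := h1
          _ ≤ CA * E * (2 * (1 + u ^ 2)) := by gcongr
          _ = _ := by ring
      have hA1 : (1 : ℝ) ≤ A := hA'
      have key : (S.card : ℝ) * min (1 : ℝ) (2 * (g : ℝ) / Y) ≤
          2 * CA * E + (4 * A * CA * E + 16 * CS) * R := by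
        -- via the first bound
        have viaA : (2 * (g : ℝ) / Y) * (2 * CA * E * u ^ 2) ≤ 4 * A * CA * E * R →
            (S.card : ℝ) * min (1 : ℝ) (2 * (g : ℝ) / Y) ≤
            2 * CA * E + (4 * A * CA * E + 16 * CS) * R := by
          intro hh
          calc (S.card : ℝ) * min (1 : ℝ) (2 * (g : ℝ) / Y)
              ≤ (2 * CA * E + 2 * CA * E * u ^ 2) * min (1 : ℝ) (2 * (g : ℝ) / Y) := by gcongr
            _ = 2 * CA * E * min (1 : ℝ) (2 * (g : ℝ) / Y) +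
                min (1 : ℝ) (2 * (g : ℝ) / Y) * (2 * CA * E * u ^ 2) := by ring
            _ ≤ 2 * CA * E * 1 + (2 * (g : ℝ) / Y) * (2 * CA * E * u ^ 2) := by
                gcongr
                · exact min_le_left _ _
                · exact min_le_right _ _
            _ ≤ 2 * CA * E * 1 + 4 * A * CA * E * R := by gcongr
            _ ≤ _ := by
                have : 0 ≤ 16 * CS * R := by positivity
                linarith
        have hval : (2 * (g : ℝ) / Y) * (2 * CA * E * u ^ 2) =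
            4 * CA * E * (Y * X₂ ^ 2 / (X₁ ^ 2 * g)) := by
          rw [hu]; field_simp; ring
        by_cases hg2 : (g : ℝ) ≤ X₂ * s ^ 2
        · by_cases hYs : (Y : ℝ) * s ≤ g * X₁
          · apply viaA
            rw [hval]
            have e1 : (Y : ℝ) * X₂ ^ 2 / (X₁ ^ 2 * g) ≤ R := by
              rw [hR, div_le_div_iff₀ (by positivity) (by positivity)]
              calc (Y : ℝ) * (X₂ : ℝ) ^ 2 * ((X₁ : ℝ) * s) = ((Y : ℝ) * s) * ((X₂ : ℝ) ^ 2 * X₁) := by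
                    ring
                _ ≤ ((g : ℝ) * X₁) * ((X₂ : ℝ) ^ 2 * X₁) := by gcongr
                _ = (X₂ : ℝ) ^ 2 * ((X₁ : ℝ) ^ 2 * g) := by ring
            calc 4 * CA * E * (Y * X₂ ^ 2 / (X₁ ^ 2 * g)) ≤ 4 * CA * E * R := by gcongr
              _ = 4 * 1 * CA * E * R := by ring
              _ ≤ 4 * A * CA * E * R := by gcongr
          · push Not at hYs
            have e2 : (S.card : ℝ) ≤ 8 * CS * (X₂ * s ^ 2) := by
              have e3 : (X₂ : ℝ) + g ≤ 2 * (X₂ * s ^ 2) := by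
                have : (X₂ : ℝ) ≤ X₂ * s ^ 2 :=
                  le_mul_of_one_le_right (by positivity) (one_le_pow₀ hs)
                linarith
              have e4 : 1 + (Y : ℝ) / (X₁ * g) ≤ 2 := by
                have : (Y : ℝ) / (X₁ * g) ≤ 1 := by
                  rw [div_le_one (by positivity)]
                  linarith
                linarith
              calc (S.card : ℝ) ≤ CS * ((X₂ : ℝ) + g) * (1 + Y / (X₁ * g)) ^ 2 := hsl
                _ ≤ CS * (2 * (X₂ * s ^ 2)) * 2 ^ 2 := by gcongr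
                _ = 8 * CS * (X₂ * s ^ 2) := by ring
            have e5 : (2 * (g : ℝ) / Y) * (8 * CS * (X₂ * s ^ 2)) ≤ 16 * CS * R := by
              have e6 : (g : ℝ) / Y * (X₂ * s ^ 2) ≤ R := by
                rw [hR, div_mul_eq_mul_div, div_le_div_iff₀ (by positivity) (by positivity)]
                calc (g : ℝ) * (X₂ * s ^ 2) * (X₁ * s) = (g * X₁) * (X₂ * s ^ 3) := by ring
                  _ ≤ (Y * s) * (X₂ * s ^ 3) := by gcongr
                  _ = X₂ * s ^ 4 * Y := by ring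
                  _ = (X₂ : ℝ) ^ 2 * Y := by rw [hs4]; ring
              calc (2 * (g : ℝ) / Y) * (8 * CS * (X₂ * s ^ 2)) =
                    16 * CS * ((g : ℝ) / Y * (X₂ * s ^ 2)) := by ring
                _ ≤ 16 * CS * R := by gcongr
            calc (S.card : ℝ) * min (1 : ℝ) (2 * (g : ℝ) / Y)
                ≤ (8 * CS * (X₂ * s ^ 2)) * (2 * (g : ℝ) / Y) := by
                  apply mul_le_mul e2 (min_le_right _ _) hmin0 (by positivity)
              _ = (2 * (g : ℝ) / Y) * (8 * CS * (X₂ * s ^ 2)) := by ring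
              _ ≤ 16 * CS * R := e5
              _ ≤ _ := by
                  have : 0 ≤ 4 * A * CA * E * R := by positivity
                  have : 0 ≤ 2 * CA * E := by positivity
                  linarith
        · push Not at hg2
          apply viaA
          rw [hval]
          have e1 : (Y : ℝ) * X₂ ^ 2 / (X₁ ^ 2 * g) ≤ A * R := by
            rw [hR, mul_div_assoc', div_le_div_iff₀ (by positivity) (by positivity)]
            have hss : s ≤ s ^ 2 := by nlinarith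
            calc (Y : ℝ) * X₂ ^ 2 * (X₁ * s) ≤ (A * X₁ * X₂) * X₂ ^ 2 * (X₁ * s ^ 2) := by
                  gcongr
              _ = A * X₂ ^ 2 * (X₁ ^ 2 * (X₂ * s ^ 2)) := by ring
              _ ≤ (A : ℝ) * (X₂ : ℝ) ^ 2 * ((X₁ : ℝ) ^ 2 * g) := by gcongr
          calc 4 * CA * E * (Y * X₂ ^ 2 / (X₁ ^ 2 * g)) ≤ 4 * CA * E * (A * R) := by gcongr
            _ = 4 * A * CA * E * R := by ring
      refine key.trans ?_
      have e8 : 0 ≤ E * CS * R := by positivity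
      have e9 : CS * R ≤ E * (CS * R) := le_mul_of_one_le_left (by positivity) hE
      have e10 : 0 ≤ A * CA * E * R := by positivity
      have e11 : CA * E ≤ A * CA * E := by
        calc CA * E = 1 * CA * E := by ring
          _ ≤ A * CA * E := by gcongr
      have e12 : 0 ≤ E * CS := by positivity
      have e13 : E * ((8 * A * CA + 16 * CS) * (1 + R)) =
        8 * (A * CA * E) + 16 * (E * CS) + 8 * (A * CA * E * R) + 16 * (E * (CS * R)) := by ring
      have e14 : 2 * CA * E + (4 * A * CA * E + 16 * CS) * R =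
        2 * (CA * E) + 4 * (A * CA * E * R) + 16 * (CS * R) := by ring
      have e15 : 0 ≤ A * CA * E := by positivity
      rw [e13, e14] at *
      linarith
  have hgeo : ∑ j ∈ range (Nat.log 2 (A * X₁ * X₂) + 1), (2 : ℝ) ^ (j + 1) ≤
      4 * (A * X₁ * X₂) := by
    have e1 : ∀ L : ℕ, ∑ j ∈ range L, (2 : ℝ) ^ (j + 1) ≤ 2 * 2 ^ L := by
      intro L
      induction L with
      | zero => simp
      | succ L ih =>
        rw [Finset.sum_range_succ]
        calc _ ≤ 2 * 2 ^ L + (2 : ℝ) ^ (L + 1) := by gcongr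
          _ = 2 * 2 ^ (L + 1) := by ring
    have e2 : (2 : ℝ) ^ (Nat.log 2 (A * X₁ * X₂)) ≤ A * X₁ * X₂ := by
      have hne : A * X₁ * X₂ ≠ 0 := by positivity
      exact_mod_cast Nat.pow_log_le_self 2 hne
    calc _ ≤ 2 * (2 : ℝ) ^ (Nat.log 2 (A * X₁ * X₂) + 1) := e1 _
      _ = 4 * 2 ^ (Nat.log 2 (A * X₁ * X₂)) := by ring
      _ ≤ 4 * (A * X₁ * X₂) := by gcongr
  calc ∑ y ∈ n.divisors ×ˢ range (Nat.log 2 (A * X₁ * X₂) + 1),
        ∑ q ∈ Q with (ct (wv M q), Nat.log 2 (nm (wv M q)).toNat) = y,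
          ((ct (wv M q) : ℝ) / (nm (wv M q) : ℝ))
      ≤ ∑ y ∈ n.divisors ×ˢ range (Nat.log 2 (A * X₁ * X₂) + 1),
        (8 * CS * (1 + A) * X₂ / ((X₁ : ℝ) ^ 2 * (y.1 : ℝ)) * 2 ^ (y.2 + 1) +
        E * ((8 * A * CA + 16 * CS) * (1 + R))) := Finset.sum_le_sum hfib
    _ = ∑ g ∈ n.divisors, (8 * CS * (1 + A) * X₂ / ((X₁ : ℝ) ^ 2 * (g : ℝ))) *
          ∑ j ∈ range (Nat.log 2 (A * X₁ * X₂) + 1), (2 : ℝ) ^ (j + 1) +
        ((n.divisors ×ˢ range (Nat.log 2 (A * X₁ * X₂) + 1)).card : ℝ) *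
          (E * ((8 * A * CA + 16 * CS) * (1 + R))) := by
        rw [Finset.sum_add_distrib, Finset.sum_const, nsmul_eq_mul, Finset.sum_product]
        simp only [Finset.mul_sum]
    _ ≤ ∑ g ∈ n.divisors, (8 * CS * (1 + A) * X₂ / ((X₁ : ℝ) ^ 2 * (g : ℝ))) *
          (4 * (A * X₁ * X₂)) + (E * E) * (E * ((8 * A * CA + 16 * CS) * (1 + R))) := by
        apply add_le_add
        · refine Finset.sum_le_sum fun g _ => ?_
          gcongr
        · gcongr
          rw [card_product, card_range]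
          push_cast
          exact mul_le_mul hE2 hE1 (by positivity) (by linarith)
    _ = _ := by
        congr 1
        · rw [Finset.mul_sum]
          refine Finset.sum_congr rfl fun g hg => ?_
          have hg1 : (g : ℝ) ≠ 0 := by
            exact_mod_cast (Nat.pos_of_mem_divisors hg).ne'
          field_simp
          ring
        · ring

end Pool.Agent.W978.QO
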