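import Mathlib
import Pool.Agent.W978.QO.C

/-! The count in a dyadic box, sharp form, second part. -/

namespace Pool.Agent.W978.QO

open Finset Pool.Agent.W978.QN

open Classical in
/-- The count in a dyadic box. -/
theorem core' (hR : S_R) (hCD : S_CD) (hQA : S_QA) (hSL : S_SL) (hCMP : S_CMP) (hNUL : S_NUL)
    (hAVG : S_AVG) (b : Fin 3 → Fin 3 → Fin 3 → ℤ) (hb : Rk2 b)
    (hdc : ∃ p : Fin 3 → ℂ, (Matrix.of (mp b p)).det ≠ 0) :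
    ∃ C : ℝ, 0 < C ∧ ∀ X₁ X₂ X₃ : ℕ, 1 ≤ X₁ → X₁ ≤ X₂ → X₂ ≤ X₃ →
      ((cs b X₁ X₂ X₃).card : ℝ) ≤ C * ((X₁ : ℝ) * X₂ * X₃) ^ 2 := by
  obtain ⟨c, hc, hcmp⟩ := hCMP b hb
  obtain ⟨K, hK, hnul⟩ := hNUL b hb
  obtain ⟨Cv, hCv, havg⟩ := hAVG b hdc
  set A : ℕ := 18 * mxb b with hAdef
  have hm1 := one_le_mxb b
  have hA : 1 ≤ A := by rw [hAdef]; omega
  obtain ⟨CA, hCA, hQA⟩ := hQA A K (c / 4) hA hK (by positivity)
  obtain ⟨CS, hCS, hSL⟩ := hSL A K (c / 4) hA hK (by positivity)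
  have hc1 : 1 ≤ 162 * mxb b ^ 3 := by
    have : 1 ≤ mxb b ^ 3 := Nat.one_le_pow _ _ hm1
    omega
  obtain ⟨C, hC, hsm⟩ := Pool.Agent.W978.QM.small_bound (162 * mxb b ^ 3) hc1 (1 / 24)
    (by norm_num)
  set D₁ : ℝ := 32 * CS * (1 + A) * A with hD₁
  set D₂ : ℝ := 8 * A * CA + 16 * CS with hD₂
  have hD₁0 : 0 < D₁ := by positivity
  have hD₂0 : 0 < D₂ := by positivity
  refine ⟨2916 + 8 * (D₁ * Cv + 27 * ((C + 1) ^ 3 * (D₂ * 2))), by positivity, ?_⟩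
  intro X₁ X₂ X₃ h1 h12 h23
  have h2 : 1 ≤ X₂ := h1.trans h12
  have h3 : 1 ≤ X₃ := h2.trans h23
  set P2 : ℕ := X₁ * X₂ with hP2
  have hP21 : 1 ≤ P2 := by
    rw [hP2]
    exact Nat.one_le_iff_ne_zero.2 (by positivity)
  obtain ⟨hdiv, hlog⟩ := hsm P2 hP21
  set E : ℝ := (C + 1) * (P2 : ℝ) ^ (1 / 24 : ℝ) with hE
  have hP21' : (1 : ℝ) ≤ P2 := by exact_mod_cast hP21
  have hP2p : (1 : ℝ) ≤ (P2 : ℝ) ^ (1 / 24 : ℝ) := Real.one_le_rpow hP21' (by norm_num)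
  have hE1 : 1 ≤ E := one_le_mul_of_one_le_of_one_le (by linarith) hP2p
  have hCE : C * (P2 : ℝ) ^ (1 / 24 : ℝ) ≤ E := by rw [hE, add_mul, one_mul]; linarith
  have x1 : (1 : ℝ) ≤ X₁ := by exact_mod_cast h1
  have x2 : (1 : ℝ) ≤ X₂ := by exact_mod_cast h2
  have x3 : (1 : ℝ) ≤ X₃ := by exact_mod_cast h3
  have x12 : (X₁ : ℝ) ≤ X₂ := by exact_mod_cast h12
  have x23 : (X₂ : ℝ) ≤ X₃ := by exact_mod_cast h23
  -- the fourth root
  set s : ℝ := (X₂ : ℝ) ^ (1 / 4 : ℝ) with hsdef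
  have hs1 : 1 ≤ s := Real.one_le_rpow x2 (by norm_num)
  have hs4 : s ^ 4 = X₂ := by
    rw [hsdef, ← Real.rpow_natCast, ← Real.rpow_mul (by linarith)]
    norm_num
  have hE3s : E ^ 3 ≤ (C + 1) ^ 3 * s := by
    rw [hE, mul_pow]
    apply mul_le_mul_of_nonneg_left _ (by positivity)
    have e1 : (P2 : ℝ) ≤ (X₂ : ℝ) ^ (2 : ℝ) := by
      have : (P2 : ℝ) = X₁ * X₂ := by rw [hP2]; push_cast; ring
      rw [this, Real.rpow_two, sq]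
      gcongr
    calc ((P2 : ℝ) ^ (1 / 24 : ℝ)) ^ 3 = (P2 : ℝ) ^ (1 / 8 : ℝ) := by
          rw [← Real.rpow_natCast, ← Real.rpow_mul (by linarith)]
          norm_num
      _ ≤ ((X₂ : ℝ) ^ (2 : ℝ)) ^ (1 / 8 : ℝ) :=
          Real.rpow_le_rpow (by linarith) e1 (by norm_num)
      _ = s := by
          rw [hsdef, ← Real.rpow_mul (by linarith)]
          norm_num
  -- comparison of sizes
  have hX2P : X₂ ≤ P2 := Nat.le_mul_of_pos_left _ (by positivity)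
  have hX1P : X₁ ≤ P2 := Nat.le_mul_of_pos_right _ (by positivity)
  have hX111 : X₁ ^ 3 ≤ P2 ^ 2 := by
    calc X₁ ^ 3 = X₁ * X₁ ^ 2 := by ring
      _ ≤ X₂ ^ 2 * X₁ ^ 2 := by
          gcongr
          calc X₁ ≤ X₂ := h12
            _ ≤ X₂ ^ 2 := Nat.le_self_pow (by norm_num) _
      _ = P2 ^ 2 := by rw [hP2]; ring
  have hPP : P2 ≤ P2 ^ 2 := Nat.le_self_pow (by norm_num) _
  -- the set as a double sum
  set P₁ := (bx X₁).filter (fun p => Prim p ∧ dm (mp b p) ≠ 0 ∧ (X₁ : ℤ) ≤ 2 * nm p) with hP₁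
  have hcount : ((cs b X₁ X₂ X₃).card : ℝ) ≤
      ∑ p ∈ P₁, ∑ q ∈ (bx X₂).filter (fun q => Prim q),
        (4 + 8 * (X₃ : ℝ) ^ 2 * ct (wv (mp b p) q) / nm (wv (mp b p) q)) := by
    have hsum : ((cs b X₁ X₂ X₃).card : ℝ) =
        ∑ p ∈ P₁, ∑ q ∈ (bx X₂).filter (fun q => Prim q),
          (((bx X₃).filter fun r => Prim r ∧ ∑ k, wv (mp b p) q k * r k = 0).card : ℝ) := by
      unfold cs
      rw [Finset.card_filter, Finset.sum_product, hP₁, Finset.sum_filter]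
      push_cast
      refine Finset.sum_congr rfl fun p _ => ?_
      rw [Finset.sum_product]
      by_cases hp : Prim p ∧ dm (mp b p) ≠ 0 ∧ (X₁ : ℤ) ≤ 2 * nm p
      · rw [if_pos hp, Finset.sum_filter]
        refine Finset.sum_congr rfl fun q _ => ?_
        by_cases hq : Prim q
        · rw [if_pos hq, Finset.card_filter]
          push_cast
          refine Finset.sum_congr rfl fun x _ => ?_
          simp only [hp, hq, true_and, and_true, ne_eq, not_false_eq_true]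
        · rw [if_neg hq]
          refine Finset.sum_eq_zero fun x _ => ?_
          rw [if_neg]
          rintro ⟨_, hq', _⟩
          exact hq hq'
      · rw [if_neg hp]
        refine Finset.sum_eq_zero fun q _ => Finset.sum_eq_zero fun x _ => ?_
        rw [if_neg]
        rintro ⟨hp', _⟩
        exact hp hp'
    rw [hsum]
    refine Finset.sum_le_sum fun p hp => Finset.sum_le_sum fun q hq => ?_
    rw [hP₁, mem_filter] at hp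
    rw [mem_filter] at hq
    exact hR (wv (mp b p) q) (wv_ne hp.2.2.1 hq.2) X₃ h3
  refine hcount.trans ?_
  set V : ℝ := (X₂ : ℝ) ^ 2 / X₁ with hV
  have hV0 : 0 ≤ V := by positivity
  have hV1 : E ^ 3 * (D₂ * (1 + (X₂ : ℝ) ^ 2 / (X₁ * s))) ≤ (C + 1) ^ 3 * (D₂ * 2) * V := by
    have e1 : s * (1 + (X₂ : ℝ) ^ 2 / (X₁ * s)) ≤ 2 * V := by
      have e2 : s * ((X₂ : ℝ) ^ 2 / (X₁ * s)) = V := by
        rw [hV]; field_simp
      have e3 : s ≤ V := by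
        rw [hV, le_div_iff₀ (by linarith)]
        have e4 : s ≤ s ^ 4 := le_self_pow₀ hs1 (by norm_num)
        calc s * X₁ ≤ s ^ 4 * X₂ := by gcongr
          _ = (X₂ : ℝ) ^ 2 := by rw [hs4]; ring
      rw [mul_add, mul_one, e2]
      linarith
    calc E ^ 3 * (D₂ * (1 + (X₂ : ℝ) ^ 2 / (X₁ * s)))
        ≤ ((C + 1) ^ 3 * s) * (D₂ * (1 + (X₂ : ℝ) ^ 2 / (X₁ * s))) := by gcongr
      _ = (C + 1) ^ 3 * D₂ * (s * (1 + (X₂ : ℝ) ^ 2 / (X₁ * s))) := by ring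
      _ ≤ (C + 1) ^ 3 * D₂ * (2 * V) := by gcongr
      _ = (C + 1) ^ 3 * (D₂ * 2) * V := by ring
  -- inner sums
  have hinner : ∀ p ∈ P₁, ∑ q ∈ (bx X₂).filter (fun q => Prim q),
        (4 + 8 * (X₃ : ℝ) ^ 2 * ct (wv (mp b p) q) / nm (wv (mp b p) q)) ≤
      108 * (X₂ : ℝ) ^ 3 + 8 * (X₃ : ℝ) ^ 2 * (D₁ * V *
        (∑ g ∈ (dm (mp b p)).natAbs.divisors, (1 / (g : ℝ))) +
        (C + 1) ^ 3 * (D₂ * 2) * V) := by
    intro p hp
    rw [hP₁, mem_filter] at hp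
    obtain ⟨hp0, hp1, hp2, hp3⟩ := hp
    have hdmle : (dm (mp b p)).natAbs ≤ 162 * mxb b ^ 3 * P2 ^ 2 := by
      have h5 := dm_le (Z := 3 * mxb b * X₁) (by positivity) (fun k j => mp_le b hp0 k j)
      have h6 : |dm (mp b p)| ≤ 162 * mxb b ^ 3 * X₁ ^ 3 := by
        refine h5.trans (le_of_eq ?_)
        ring
      rw [Int.abs_eq_natAbs] at h6
      have h7 : (dm (mp b p)).natAbs ≤ 162 * mxb b ^ 3 * X₁ ^ 3 := by exact_mod_cast h6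
      exact h7.trans (Nat.mul_le_mul_left _ hX111)
    have hdm1 : 1 ≤ (dm (mp b p)).natAbs :=
      Nat.one_le_iff_ne_zero.2 (Int.natAbs_ne_zero.2 hp2)
    have hminor : ∃ k k' j j', (c / 4) * (X₁ : ℝ) ^ 2 ≤
        |((mnr (mp b p) k k' j j' : ℤ) : ℝ)| := by
      obtain ⟨k, k', j, j', h5⟩ := hcmp p
      refine ⟨k, k', j, j', le_trans ?_ h5⟩
      have h6 : (X₁ : ℝ) ≤ 2 * (nm p : ℝ) := by exact_mod_cast hp3
      calc c / 4 * (X₁ : ℝ) ^ 2 ≤ c / 4 * (2 * (nm p : ℝ)) ^ 2 := by gcongr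
        _ = c * (nm p : ℝ) ^ 2 := by ring
    have hmpA : ∀ k j, |mp b p k j| ≤ (A : ℤ) * X₁ := by
      intro k j
      refine (mp_le b hp0 k j).trans ?_
      rw [hAdef]
      push_cast
      have : (0 : ℤ) ≤ mxb b * X₁ := by positivity
      linarith
    have hAP : A * X₁ * X₂ ≤ 162 * mxb b ^ 3 * P2 ^ 2 := by
      have e1 : mxb b ≤ mxb b ^ 3 := Nat.le_self_pow (by norm_num) _
      calc A * X₁ * X₂ = 18 * mxb b * (X₁ * X₂) := by rw [hAdef]; ring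
        _ ≤ 162 * mxb b ^ 3 * P2 ^ 2 := by
            gcongr
            norm_num
    have hs := sum_q2 A K hA CA CS hCA hCS (mp b p) X₁ X₂ h1 h2 hp2
      (fun g q q' hq hq' i => hnul p hp1 g (cp q q' i)
        (fun k k' j j' => hCD (mp b p) g q q' hq hq' k k' j j' i))
      (fun q hq k => by
        have := wv_le b hp0 hq k
        rw [hAdef]
        push_cast
        linarith)
      (fun Y g hg hgY hY Q hQ hQ' => hQA (mp b p) X₁ X₂ Y g h1 h2 hg hgY hY hmpA hminor Q hQ hQ')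
      (fun Y g hg Q hQ hQ' => hSL (mp b p) X₁ X₂ Y g h1 h2 hg hmpA hminor Q hQ hQ')
      E hE1
      ((hlog X₂ h2 (hX2P.trans (hPP.trans (Nat.le_mul_of_pos_left _ (by omega))))).trans hCE)
      ((hlog (A * X₁ * X₂) (Nat.one_le_iff_ne_zero.2 (by positivity)) hAP).trans hCE)
      ((hdiv _ hdm1 hdmle).trans hCE) s hs1 hs4
    rw [← hD₁, ← hD₂, ← hV] at hs
    have hs' := hs.trans (add_le_add le_rfl hV1)
    set Q := (bx X₂).filter (fun q => Prim q) with hQ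
    have hcardQ : (Q.card : ℝ) ≤ 27 * (X₂ : ℝ) ^ 3 :=
      le_trans (by exact_mod_cast Finset.card_le_card (Finset.filter_subset _ _)) (card_bx_le h2)
    calc ∑ q ∈ Q, (4 + 8 * (X₃ : ℝ) ^ 2 * ct (wv (mp b p) q) / nm (wv (mp b p) q))
        = 4 * Q.card + 8 * (X₃ : ℝ) ^ 2 *
          ∑ q ∈ Q, ((ct (wv (mp b p) q) : ℝ) / (nm (wv (mp b p) q) : ℝ)) := by
          rw [Finset.mul_sum, ← nsmul_eq_mul', ← Finset.sum_const, ← Finset.sum_add_distrib]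
          refine Finset.sum_congr rfl fun q _ => ?_
          ring
      _ ≤ 4 * (27 * (X₂ : ℝ) ^ 3) + 8 * (X₃ : ℝ) ^ 2 * (D₁ * V *
        (∑ g ∈ (dm (mp b p)).natAbs.divisors, (1 / (g : ℝ))) +
        (C + 1) ^ 3 * (D₂ * 2) * V) := by
          gcongr
      _ = _ := by ring
  have hcardP : (P₁.card : ℝ) ≤ 27 * (X₁ : ℝ) ^ 3 :=
    le_trans (by exact_mod_cast Finset.card_le_card (Finset.filter_subset _ _)) (card_bx_le h1)
  refine (Finset.sum_le_sum hinner).trans ?_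
  have havg1 : ∑ p ∈ P₁, ∑ g ∈ (dm (mp b p)).natAbs.divisors, (1 / (g : ℝ)) ≤
      Cv * (X₁ : ℝ) ^ 3 := by
    refine le_trans ?_ (havg X₁ h1)
    apply Finset.sum_le_sum_of_subset_of_nonneg
    · intro p hp
      rw [hP₁, mem_filter] at hp
      rw [mem_filter]
      exact ⟨hp.1, hp.2.2.1⟩
    · intro p _ _
      exact Finset.sum_nonneg fun g _ => by positivity
  have hsplit : ∑ p ∈ P₁, (108 * (X₂ : ℝ) ^ 3 + 8 * (X₃ : ℝ) ^ 2 * (D₁ * V *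
        (∑ g ∈ (dm (mp b p)).natAbs.divisors, (1 / (g : ℝ))) +
        (C + 1) ^ 3 * (D₂ * 2) * V)) =
      P₁.card * (108 * (X₂ : ℝ) ^ 3 + 8 * (X₃ : ℝ) ^ 2 * ((C + 1) ^ 3 * (D₂ * 2) * V)) +
      8 * (X₃ : ℝ) ^ 2 * (D₁ * V) *
        ∑ p ∈ P₁, ∑ g ∈ (dm (mp b p)).natAbs.divisors, (1 / (g : ℝ)) := by
    rw [Finset.mul_sum, ← nsmul_eq_mul, ← Finset.sum_const, ← Finset.sum_add_distrib]
    refine Finset.sum_congr rfl fun p _ => ?_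
    ring
  rw [hsplit]
  have hB1 : (X₁ : ℝ) ^ 3 * (X₂ : ℝ) ^ 3 ≤ ((X₁ : ℝ) * X₂ * X₃) ^ 2 := by
    have e1 : (X₁ : ℝ) * X₂ ≤ X₃ ^ 2 := by
      calc (X₁ : ℝ) * X₂ ≤ X₃ * X₃ := by
            gcongr
            exact h12.trans h23
        _ = X₃ ^ 2 := by ring
    calc (X₁ : ℝ) ^ 3 * (X₂ : ℝ) ^ 3 = ((X₁ : ℝ) * X₂) ^ 2 * (X₁ * X₂) := by ring
      _ ≤ ((X₁ : ℝ) * X₂) ^ 2 * X₃ ^ 2 := by gcongr
      _ = (X₁ * X₂ * X₃) ^ 2 := by ring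
  have hB3 : (X₁ : ℝ) ^ 3 * ((X₃ : ℝ) ^ 2 * V) = ((X₁ : ℝ) * X₂ * X₃) ^ 2 := by
    rw [hV]
    have : (X₁ : ℝ) ≠ 0 := by linarith
    field_simp
  calc P₁.card * (108 * (X₂ : ℝ) ^ 3 + 8 * (X₃ : ℝ) ^ 2 * ((C + 1) ^ 3 * (D₂ * 2) * V)) +
      8 * (X₃ : ℝ) ^ 2 * (D₁ * V) *
        ∑ p ∈ P₁, ∑ g ∈ (dm (mp b p)).natAbs.divisors, (1 / (g : ℝ))
      ≤ (27 * (X₁ : ℝ) ^ 3) *
        (108 * (X₂ : ℝ) ^ 3 + 8 * (X₃ : ℝ) ^ 2 * ((C + 1) ^ 3 * (D₂ * 2) * V)) +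
      8 * (X₃ : ℝ) ^ 2 * (D₁ * V) * (Cv * (X₁ : ℝ) ^ 3) := by
        apply add_le_add
        · exact mul_le_mul_of_nonneg_right hcardP (by positivity)
        · exact mul_le_mul_of_nonneg_left havg1 (by positivity)
    _ = 2916 * ((X₁ : ℝ) ^ 3 * (X₂ : ℝ) ^ 3) +
        (8 * (D₁ * Cv + 27 * ((C + 1) ^ 3 * (D₂ * 2)))) * ((X₁ : ℝ) ^ 3 * ((X₃ : ℝ) ^ 2 * V)) := by
        ring
    _ ≤ 2916 * ((X₁ : ℝ) * X₂ * X₃) ^ 2 +
        (8 * (D₁ * Cv + 27 * ((C + 1) ^ 3 * (D₂ * 2)))) * ((X₁ : ℝ) * X₂ * X₃) ^ 2 := by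
        rw [hB3]
        gcongr
    _ = _ := by ring

end Pool.Agent.W978.QO
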