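import Mathlib
import Pool.Agent.W978.QO.D

/-! Assembly: the upper bound of the correct order of magnitude, and the final statement. -/

namespace Pool.Agent.W978.QO

open Finset Pool.Agent.W978.QN

theorem geo4 (m : ℕ) : ∑ j ∈ range (m + 1), (4 : ℝ) ^ j ≤ 2 * 4 ^ m := by
  induction m with
  | zero => simp
  | succ m ih =>
    rw [Finset.sum_range_succ]
    calc _ ≤ 2 * 4 ^ m + (4 : ℝ) ^ (m + 1) := by gcongr
      _ ≤ 2 * 4 ^ (m + 1) := by rw [pow_succ]; nlinarith [pow_pos (show (0:ℝ) < 4 by norm_num) m]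

/-- The sum over the dyadic boxes. -/
theorem sum_boxes (L N : ℕ) (hN : 1 ≤ N) (I : Finset (Fin 3 → ℕ))
    (hI : ∀ k ∈ I, (∀ m, k m < L) ∧ 2 ^ k 0 * 2 ^ k 1 * 2 ^ k 2 ≤ N) :
    ∑ k ∈ I, (((2 ^ k 0 : ℕ) : ℝ) * ((2 ^ k 1 : ℕ) : ℝ) * ((2 ^ k 2 : ℕ) : ℝ)) ^ 2 ≤
      2 * (L : ℝ) ^ 2 * (N : ℝ) ^ 2 := by
  classical
  set J : Finset (ℕ × ℕ) := range L ×ˢ range L with hJ
  have hmaps : ∀ k ∈ I, (k 0, k 1) ∈ J := by
    intro k hk
    rw [hJ, mem_product, mem_range, mem_range]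
    exact ⟨(hI k hk).1 0, (hI k hk).1 1⟩
  rw [← Finset.sum_fiberwise_of_maps_to hmaps]
  have hfib : ∀ y ∈ J, ∑ k ∈ I with (k 0, k 1) = y,
      (((2 ^ k 0 : ℕ) : ℝ) * ((2 ^ k 1 : ℕ) : ℝ) * ((2 ^ k 2 : ℕ) : ℝ)) ^ 2 ≤
      2 * (N : ℝ) ^ 2 := by
    rintro ⟨x, y⟩ _
    set S := I.filter (fun k => (k 0, k 1) = (x, y)) with hS
    by_cases hSe : S = ∅
    · rw [hSe, Finset.sum_empty]; positivity
    -- all third coordinates are at most `m`
    set m := Nat.log 2 (N / (2 ^ x * 2 ^ y)) with hm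
    have hS2 : ∀ k ∈ S, k 0 = x ∧ k 1 = y ∧ 2 ^ x * 2 ^ y * 2 ^ k 2 ≤ N := by
      intro k hk
      rw [hS, mem_filter, Prod.mk.injEq] at hk
      have := (hI k hk.1).2
      rw [hk.2.1, hk.2.2] at this
      exact ⟨hk.2.1, hk.2.2, this⟩
    have hpos : 0 < 2 ^ x * 2 ^ y := by positivity
    have hle : ∀ k ∈ S, k 2 ∈ range (m + 1) := by
      intro k hk
      obtain ⟨_, _, h3⟩ := hS2 k hk
      rw [mem_range]
      have : 2 ^ k 2 ≤ N / (2 ^ x * 2 ^ y) := by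
        rw [Nat.le_div_iff_mul_le hpos]
        linarith [mul_comm (2 ^ k 2) (2 ^ x * 2 ^ y)]
      have := Nat.le_log_of_pow_le (b := 2) (by norm_num) this
      omega
    have hinj : Set.InjOn (fun k : Fin 3 → ℕ => k 2) (S : Set (Fin 3 → ℕ)) := by
      intro k hk k' hk' h
      obtain ⟨a0, a1, _⟩ := hS2 k hk
      obtain ⟨b0, b1, _⟩ := hS2 k' hk'
      funext i
      fin_cases i
      · exact a0.trans b0.symm
      · exact a1.trans b1.symm
      · exact h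
    have hNx : ((2 ^ x * 2 ^ y : ℕ) : ℝ) * 2 ^ m ≤ N := by
      obtain ⟨k, hk⟩ := Finset.nonempty_iff_ne_empty.2 hSe
      obtain ⟨_, _, h3⟩ := hS2 k hk
      have hne : N / (2 ^ x * 2 ^ y) ≠ 0 := by
        have : 2 ^ k 2 ≤ N / (2 ^ x * 2 ^ y) := by
          rw [Nat.le_div_iff_mul_le hpos]
          linarith [mul_comm (2 ^ k 2) (2 ^ x * 2 ^ y)]
        have h1 : 1 ≤ 2 ^ k 2 := Nat.one_le_two_pow
        omega
      have h4 := Nat.pow_log_le_self 2 hne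
      rw [← hm] at h4
      have h5 : (2 ^ x * 2 ^ y) * 2 ^ m ≤ N := by
        calc (2 ^ x * 2 ^ y) * 2 ^ m ≤ (2 ^ x * 2 ^ y) * (N / (2 ^ x * 2 ^ y)) := by gcongr
          _ ≤ N := Nat.mul_div_le _ _
      exact_mod_cast h5
    calc ∑ k ∈ S, (((2 ^ k 0 : ℕ) : ℝ) * ((2 ^ k 1 : ℕ) : ℝ) * ((2 ^ k 2 : ℕ) : ℝ)) ^ 2
        = ∑ k ∈ S, ((2 ^ x * 2 ^ y : ℕ) : ℝ) ^ 2 * 4 ^ k 2 := by
          refine Finset.sum_congr rfl fun k hk => ?_
          obtain ⟨a0, a1, _⟩ := hS2 k hk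
          rw [a0, a1]
          push_cast
          rw [mul_pow, show (4 : ℝ) = 2 ^ 2 by norm_num, ← pow_mul, ← pow_mul]
          ring
      _ = ∑ j ∈ S.image (fun k => k 2), ((2 ^ x * 2 ^ y : ℕ) : ℝ) ^ 2 * 4 ^ j := by
          rw [Finset.sum_image hinj]
      _ ≤ ∑ j ∈ range (m + 1), ((2 ^ x * 2 ^ y : ℕ) : ℝ) ^ 2 * 4 ^ j := by
          apply Finset.sum_le_sum_of_subset_of_nonneg
          · intro j hj
            obtain ⟨k, hk, rfl⟩ := mem_image.1 hj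
            exact hle k hk
          · intro j _ _; positivity
      _ = ((2 ^ x * 2 ^ y : ℕ) : ℝ) ^ 2 * ∑ j ∈ range (m + 1), (4 : ℝ) ^ j := by
          rw [Finset.mul_sum]
      _ ≤ ((2 ^ x * 2 ^ y : ℕ) : ℝ) ^ 2 * (2 * 4 ^ m) := by
          gcongr
          exact geo4 m
      _ = 2 * (((2 ^ x * 2 ^ y : ℕ) : ℝ) * 2 ^ m) ^ 2 := by
          rw [show (4 : ℝ) = 2 ^ 2 by norm_num, ← pow_mul, mul_pow, ← pow_mul]
          ring
      _ ≤ 2 * (N : ℝ) ^ 2 := by gcongr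
  calc _ ≤ ∑ y ∈ J, 2 * (N : ℝ) ^ 2 := Finset.sum_le_sum hfib
    _ = 2 * (L : ℝ) ^ 2 * (N : ℝ) ^ 2 := by
        rw [Finset.sum_const, hJ, card_product, card_range, nsmul_eq_mul]
        push_cast
        ring

open Classical in
/-- The upper bound. -/
theorem upper (hBR : S_BR) (hR : S_R) (hCD : S_CD) (hQA : S_QA) (hSL : S_SL) (hCMP : S_CMP)
    (hNUL : S_NUL) (hRK : S_RK) (hAVG : S_AVG) (hDC : S_DC)
    (a : (Fin 3 → Fin 3) → ℤ) (ha : Smooth a) :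
    ∃ C : ℝ, 0 < C ∧ ∀ B : ℕ, 1 ≤ B → ∃ S : Finset (Fin 3 → Fin 3 → ℤ),
      (∀ P : Fin 3 → Fin 3 → ℤ, (∀ i, Prim (P i)) → tf a P = 0 → InU a P →
        ∏ i, nm (P i) ≤ B → P ∈ S) ∧
      (S.card : ℝ) ≤ C * (B : ℝ) ^ 2 * (Nat.log 2 (8 * B) + 1 : ℝ) ^ 2 := by
  have hcore := fun σ : Equiv.Perm (Fin 3) =>
    core' hR hCD hQA hSL hCMP hNUL hAVG (cu a σ) (hRK a ha σ) (hDC a ha σ)
  choose Cσ hCσ hcore using hcore
  set C₁ := ∑ σ, Cσ σ with hC₁
  have hC₁0 : 0 ≤ C₁ := Finset.sum_nonneg fun σ _ => (hCσ σ).le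
  refine ⟨128 * (C₁ + 1), by positivity, ?_⟩
  intro B hB1
  set L := Nat.log 2 (8 * B) + 1 with hLdef
  set I : Finset (Fin 3 → ℕ) := (Fintype.piFinset fun _ : Fin 3 => range L).filter
    (fun k => k 0 ≤ k 1 ∧ k 1 ≤ k 2 ∧ 2 ^ k 0 * 2 ^ k 1 * 2 ^ k 2 ≤ 8 * B) with hI
  set mk : Equiv.Perm (Fin 3) → (Fin 3 → ℤ) × (Fin 3 → ℤ) × (Fin 3 → ℤ) →
    (Fin 3 → Fin 3 → ℤ) := fun σ x i =>
      (![x.1, x.2.1, x.2.2] : Fin 3 → Fin 3 → ℤ) (σ.symm i) with hmk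
  refine ⟨(univ : Finset (Equiv.Perm (Fin 3))).biUnion fun σ => I.biUnion fun k =>
    (cs (cu a σ) (2 ^ k 0) (2 ^ k 1) (2 ^ k 2)).image (mk σ), ?_, ?_⟩
  · intro P hP hq hU hprod
    set σ := Tuple.sort (fun i => nm (P i)) with hσ
    have hmono : Monotone ((fun i => nm (P i)) ∘ σ) := Tuple.monotone_sort _
    rw [mem_biUnion]
    refine ⟨σ, mem_univ _, ?_⟩
    rw [mem_biUnion]
    refine ⟨fun m => dy (P (σ m)), ?_, ?_⟩
    · have hle : 2 ^ dy (P (σ 0)) * 2 ^ dy (P (σ 1)) * 2 ^ dy (P (σ 2)) ≤ 8 * B := by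
        have h0 := (dy_spec (hP (σ 0))).2
        have h1 := (dy_spec (hP (σ 1))).2
        have h2 := (dy_spec (hP (σ 2))).2
        have hpr : ∏ i, nm (P i) = nm (P (σ 0)) * nm (P (σ 1)) * nm (P (σ 2)) := by
          rw [← Equiv.prod_comp σ (fun i => nm (P i)), Fin.prod_univ_three]
        have n0 := nm_pos (hP (σ 0))
        have n1 := nm_pos (hP (σ 1))
        have n2 := nm_pos (hP (σ 2))
        have : ((2 ^ dy (P (σ 0)) : ℕ) : ℤ) * ((2 ^ dy (P (σ 1)) : ℕ) : ℤ) *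
            ((2 ^ dy (P (σ 2)) : ℕ) : ℤ) ≤ 8 * B := by
          calc ((2 ^ dy (P (σ 0)) : ℕ) : ℤ) * ((2 ^ dy (P (σ 1)) : ℕ) : ℤ) *
              ((2 ^ dy (P (σ 2)) : ℕ) : ℤ)
              ≤ (2 * nm (P (σ 0))) * (2 * nm (P (σ 1))) * (2 * nm (P (σ 2))) := by gcongr
            _ = 8 * ∏ i, nm (P i) := by rw [hpr]; ring
            _ ≤ 8 * B := by gcongr
        exact_mod_cast this
      rw [hI, mem_filter, Fintype.mem_piFinset]
      refine ⟨?_, dy_mono (hmono (by decide)), dy_mono (hmono (by decide)), hle⟩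
      have hone : ∀ m, 1 ≤ 2 ^ dy (P (σ m)) := fun m => Nat.one_le_two_pow
      have hlem : ∀ m : Fin 3, 2 ^ dy (P (σ m)) ≤ 8 * B := by
        intro m
        refine le_trans ?_ hle
        have a0 := hone 0
        have a1 := hone 1
        have a2 := hone 2
        set y0 := 2 ^ dy (P (σ 0))
        set y1 := 2 ^ dy (P (σ 1))
        set y2 := 2 ^ dy (P (σ 2))
        have b01 : 1 ≤ y0 * y1 := Nat.mul_le_mul a0 a1
        fin_cases m
        · calc y0 = y0 * 1 * 1 := by ring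
            _ ≤ y0 * y1 * y2 := by gcongr
        · calc y1 = 1 * y1 * 1 := by ring
            _ ≤ y0 * y1 * y2 := by gcongr
        · calc y2 = 1 * y2 := by ring
            _ ≤ y0 * y1 * y2 := by gcongr
      intro m
      rw [mem_range, hLdef]
      have := Nat.le_log_of_pow_le (b := 2) (by norm_num) (hlem m)
      omega
    · rw [mem_image]
      refine ⟨(P (σ 0), P (σ 1), P (σ 2)), ?_, ?_⟩
      · unfold cs
        rw [mem_filter, mem_product, mem_product]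
        refine ⟨⟨mem_bx.2 (dy_spec (hP _)).1, mem_bx.2 (dy_spec (hP _)).1,
          mem_bx.2 (dy_spec (hP _)).1⟩,
          ⟨hP _, ?_, (dy_spec (hP _)).2⟩, hP _, hP _, ?_⟩
        · have := hU (σ 1) (σ 2) (fun h => by simpa using σ.injective h)
          rwa [det_dm hBR] at this
        · rw [tf_cf hBR a σ, cf_wv] at hq
          exact hq
      · funext i
        obtain ⟨m, rfl⟩ := σ.surjective i
        simp only [hmk, Equiv.symm_apply_apply]
        fin_cases m <;> rfl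
  · -- the cardinality
    have hterm : ∀ σ : Equiv.Perm (Fin 3), ∀ k ∈ I,
        (((cs (cu a σ) (2 ^ k 0) (2 ^ k 1) (2 ^ k 2)).image (mk σ)).card : ℝ) ≤
        Cσ σ * (((2 ^ k 0 : ℕ) : ℝ) * ((2 ^ k 1 : ℕ) : ℝ) * ((2 ^ k 2 : ℕ) : ℝ)) ^ 2 := by
      intro σ k hk
      rw [hI, mem_filter] at hk
      obtain ⟨-, k01, k12, hk16⟩ := hk
      have h01 : 2 ^ k 0 ≤ 2 ^ k 1 := Nat.pow_le_pow_right (by norm_num) k01
      have h12 : 2 ^ k 1 ≤ 2 ^ k 2 := Nat.pow_le_pow_right (by norm_num) k12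
      have h1 := hcore σ (2 ^ k 0) (2 ^ k 1) (2 ^ k 2) Nat.one_le_two_pow h01 h12
      refine le_trans ?_ h1
      exact_mod_cast Finset.card_image_le
    have hbox := sum_boxes L (8 * B) (by omega) I (by
      intro k hk
      rw [hI, mem_filter, Fintype.mem_piFinset] at hk
      exact ⟨fun m => mem_range.1 (hk.1 m), hk.2.2.2⟩)
    calc (((univ : Finset (Equiv.Perm (Fin 3))).biUnion fun σ => I.biUnion fun k =>
          (cs (cu a σ) (2 ^ k 0) (2 ^ k 1) (2 ^ k 2)).image (mk σ)).card : ℝ)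
        ≤ ∑ σ : Equiv.Perm (Fin 3), ∑ k ∈ I,
          (((cs (cu a σ) (2 ^ k 0) (2 ^ k 1) (2 ^ k 2)).image (mk σ)).card : ℝ) := by
          have h1 := Finset.card_biUnion_le (s := (univ : Finset (Equiv.Perm (Fin 3))))
            (t := fun σ => I.biUnion fun k =>
              (cs (cu a σ) (2 ^ k 0) (2 ^ k 1) (2 ^ k 2)).image (mk σ))
          have h2 : ∑ σ : Equiv.Perm (Fin 3), (I.biUnion fun k =>
              (cs (cu a σ) (2 ^ k 0) (2 ^ k 1) (2 ^ k 2)).image (mk σ)).card ≤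
            ∑ σ : Equiv.Perm (Fin 3), ∑ k ∈ I,
              ((cs (cu a σ) (2 ^ k 0) (2 ^ k 1) (2 ^ k 2)).image (mk σ)).card :=
            Finset.sum_le_sum fun σ _ => Finset.card_biUnion_le
          exact_mod_cast h1.trans h2
      _ ≤ ∑ σ : Equiv.Perm (Fin 3), ∑ k ∈ I,
          Cσ σ * (((2 ^ k 0 : ℕ) : ℝ) * ((2 ^ k 1 : ℕ) : ℝ) * ((2 ^ k 2 : ℕ) : ℝ)) ^ 2 :=
          Finset.sum_le_sum fun σ _ => Finset.sum_le_sum fun k hk => hterm σ k hk
      _ = C₁ * ∑ k ∈ I,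
          (((2 ^ k 0 : ℕ) : ℝ) * ((2 ^ k 1 : ℕ) : ℝ) * ((2 ^ k 2 : ℕ) : ℝ)) ^ 2 := by
          rw [hC₁, Finset.sum_mul]
          refine Finset.sum_congr rfl fun σ _ => ?_
          rw [Finset.mul_sum]
      _ ≤ (C₁ + 1) * (2 * (L : ℝ) ^ 2 * ((8 * B : ℕ) : ℝ) ^ 2) := by
          apply mul_le_mul (by linarith) hbox (Finset.sum_nonneg fun k _ => by positivity)
            (by positivity)
      _ = 128 * (C₁ + 1) * (B : ℝ) ^ 2 * (Nat.log 2 (8 * B) + 1 : ℝ) ^ 2 := by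
          rw [hLdef]
          push_cast
          ring

/-- The final statement. -/
theorem main (hBR : S_BR) (hR : S_R) (hCD : S_CD) (hQA : S_QA) (hSL : S_SL) (hCMP : S_CMP)
    (hNUL : S_NUL) (hRK : S_RK) (hAVG : S_AVG) (hDC : S_DC) (hDET : S_DET) (hPT : S_PT)
    (hLB : S_LB) (hLS : S_LS)
    (a : (Fin 3 → Fin 3) → ℤ) (ha : Smooth a) :
    (∃ P : Fin 3 → Fin 3 → ℂ, (∀ i, P i ≠ 0) ∧ tf a P = 0 ∧ InU a P) ∧
    ∃ c C T₀ : ℝ, 0 < c ∧ 0 < C ∧ ∀ T : ℝ, T₀ ≤ T →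
      {P : Fin 3 → Fin 3 → ℤ | (∀ i, Rep (P i)) ∧ tf a P = 0 ∧ InU a P ∧
        ∏ i, (nm (P i) : ℝ) ^ 2 ≤ T}.Finite ∧
      c * T * Real.log T ^ 2 ≤
        ({P : Fin 3 → Fin 3 → ℤ | (∀ i, Rep (P i)) ∧ tf a P = 0 ∧ InU a P ∧
          ∏ i, (nm (P i) : ℝ) ^ 2 ≤ T}.ncard : ℝ) ∧
      ({P : Fin 3 → Fin 3 → ℤ | (∀ i, Rep (P i)) ∧ tf a P = 0 ∧ InU a P ∧
          ∏ i, (nm (P i) : ℝ) ^ 2 ≤ T}.ncard : ℝ) ≤ C * T * Real.log T ^ 2 := by
  refine ⟨hPT a (hDET a ha), ?_⟩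
  obtain ⟨C, hC, hup⟩ := upper hBR hR hCD hQA hSL hCMP hNUL hRK hAVG hDC a ha
  obtain ⟨c, B₀, hc, hlow⟩ := hLS a (hLB a ha)
  refine ⟨c / 64, C * 100, max 16 (((B₀ : ℝ) + 4) ^ 2), by positivity, by positivity, ?_⟩
  intro T hT
  have hT16 : (16 : ℝ) ≤ T := (le_max_left _ _).trans hT
  have hTB : ((B₀ : ℝ) + 4) ^ 2 ≤ T := (le_max_right _ _).trans hT
  have hT0 : 0 < T := by linarith
  set r := Real.sqrt T with hr
  have hr2 : r ^ 2 = T := Real.sq_sqrt hT0.le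
  have hr0 : 0 ≤ r := Real.sqrt_nonneg _
  have hrB : (B₀ : ℝ) + 4 ≤ r := by
    rw [hr]; exact Real.le_sqrt_of_sq_le hTB
  set B := ⌊r⌋₊ with hB
  have hBr : (B : ℝ) ≤ r := Nat.floor_le hr0
  have hBr' : r < B + 1 := Nat.lt_floor_add_one r
  have hB4 : B₀ + 4 ≤ B := by
    rw [hB]; apply Nat.le_floor; push_cast; exact hrB
  have hB0r : (4 : ℝ) ≤ B := by exact_mod_cast (by omega : 4 ≤ B)
  -- the height condition
  have hcond : ∀ P : Fin 3 → Fin 3 → ℤ, (∀ i, Prim (P i)) →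
      ((∏ i, (nm (P i) : ℝ) ^ 2 ≤ T) ↔ ∏ i, nm (P i) ≤ (B : ℤ)) := by
    intro P hP
    have h0 : 0 ≤ ∏ i, nm (P i) := Finset.prod_nonneg fun i _ => by
      have := nm_pos (hP i)
      omega
    have h1 : ∏ i, (nm (P i) : ℝ) ^ 2 = ((∏ i, nm (P i) : ℤ) : ℝ) ^ 2 := by
      push_cast
      rw [Finset.prod_pow]
    obtain ⟨n, hn⟩ := Int.eq_ofNat_of_zero_le h0
    rw [h1, hn]
    constructor
    · intro h
      have h2 : (n : ℝ) ≤ r := by
        rw [hr]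
        apply Real.le_sqrt_of_sq_le
        exact_mod_cast h
      have h3 : n ≤ B := Nat.le_floor h2
      exact_mod_cast h3
    · intro h
      have h3 : (n : ℝ) ≤ B := by exact_mod_cast h
      rw [← hr2]
      push_cast
      gcongr
      linarith
  set U : Set (Fin 3 → Fin 3 → ℤ) := {P | (∀ i, Rep (P i)) ∧ tf a P = 0 ∧ InU a P ∧
        ∏ i, (nm (P i) : ℝ) ^ 2 ≤ T} with hU
  obtain ⟨S, hS, hScard⟩ := hup B (by omega)
  have hsub : U ⊆ ↑S := by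
    rintro P ⟨h1, h2, h3, h4⟩
    exact hS P (fun i => (h1 i).1) h2 h3 ((hcond P fun i => (h1 i).1).1 h4)
  have hfin : U.Finite := S.finite_toSet.subset hsub
  obtain ⟨S', hS', hS'card⟩ := hlow B (by omega)
  have hsub' : (↑S' : Set (Fin 3 → Fin 3 → ℤ)) ⊆ U := by
    intro P hP
    obtain ⟨h1, h2, h3, h4⟩ := hS' P hP
    exact ⟨h1, h2, h3, (hcond P fun i => (h1 i).1).2 h4⟩
  have hn1 : (U.ncard : ℝ) ≤ S.card := by
    have := Set.ncard_le_ncard hsub S.finite_toSet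
    rw [Set.ncard_coe_finset] at this
    exact_mod_cast this
  have hn2 : (S'.card : ℝ) ≤ U.ncard := by
    have := Set.ncard_le_ncard hsub' hfin
    rw [Set.ncard_coe_finset] at this
    exact_mod_cast this
  have hlogT : Real.log T = 2 * Real.log r := by
    rw [← hr2, Real.log_pow]; push_cast; ring
  have hr4 : (4 : ℝ) ≤ r := by linarith
  have hlogr : 0 < Real.log r := Real.log_pos (by linarith)
  have hl4 : 1 ≤ Real.log r := by
    rw [Real.le_log_iff_exp_le (by linarith)]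
    have := Real.exp_one_lt_d9
    linarith
  refine ⟨hfin, ?_, ?_⟩
  · refine le_trans ?_ (hS'card.trans hn2)
    have h1 : r / 2 ≤ B := by linarith
    have h2 : Real.log r / 2 ≤ Real.log B := by
      have e1 : Real.log (Real.sqrt r) = Real.log r / 2 := Real.log_sqrt hr0
      rw [← e1]
      apply Real.log_le_log (Real.sqrt_pos.2 (by linarith))
      have e2 : Real.sqrt r ≤ r / 2 := by
        rw [Real.sqrt_le_left (by linarith)]
        nlinarith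
      linarith
    calc c / 64 * T * Real.log T ^ 2 = c * (r / 2) ^ 2 * (Real.log r / 2) ^ 2 := by
          rw [hlogT, ← hr2]; ring
      _ ≤ c * (B : ℝ) ^ 2 * Real.log B ^ 2 := by gcongr
  · refine (hn1.trans hScard).trans ?_
    have h1 : (Nat.log 2 (8 * B) + 1 : ℝ) ≤ 20 * Real.log r := by
      have e1 : ((Nat.log 2 (8 * B) : ℕ) : ℝ) * Real.log 2 ≤ Real.log ((8 * B : ℕ) : ℝ) := by
        have : ((2 : ℝ) ^ (Nat.log 2 (8 * B))) ≤ ((8 * B : ℕ) : ℝ) := by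
          exact_mod_cast Nat.pow_log_le_self 2 (by omega)
        calc ((Nat.log 2 (8 * B) : ℕ) : ℝ) * Real.log 2
            = Real.log ((2 : ℝ) ^ (Nat.log 2 (8 * B))) := by rw [Real.log_pow]
          _ ≤ _ := Real.log_le_log (by positivity) this
      have e2 : Real.log ((8 * B : ℕ) : ℝ) ≤ 3 * Real.log 2 + Real.log r := by
        push_cast
        rw [Real.log_mul (by norm_num) (by linarith)]
        have : Real.log 8 = 3 * Real.log 2 := by
          rw [show (8 : ℝ) = 2 ^ 3 by norm_num, Real.log_pow]; push_cast; ring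
        rw [this]
        have := Real.log_le_log (by linarith : (0 : ℝ) < B) hBr
        linarith
      have e3 := Real.log_two_gt_d9
      have e4 : ((Nat.log 2 (8 * B) : ℕ) : ℝ) ≤ 3 + Real.log r / Real.log 2 := by
        have l2 : 0 < Real.log 2 := Real.log_pos (by norm_num)
        rw [← sub_nonneg]
        have : 0 ≤ (3 + Real.log r / Real.log 2 - ((Nat.log 2 (8 * B) : ℕ) : ℝ)) * Real.log 2 := by
          have : Real.log r / Real.log 2 * Real.log 2 = Real.log r :=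
            div_mul_cancel₀ _ l2.ne'
          nlinarith
        exact nonneg_of_mul_nonneg_left this l2
      have e5 : Real.log r / Real.log 2 ≤ 2 * Real.log r := by
        rw [div_le_iff₀ (Real.log_pos (by norm_num))]
        nlinarith
      linarith
    calc C * (B : ℝ) ^ 2 * (Nat.log 2 (8 * B) + 1 : ℝ) ^ 2
        ≤ C * r ^ 2 * (20 * Real.log r) ^ 2 := by gcongr
      _ = C * 100 * T * Real.log T ^ 2 := by
          rw [hlogT, hr2]; ring

end Pool.Agent.W978.QO
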